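import Pool.Agent.H6.RP.C7
import Pool.Agent.H6.RP.C8

/-! MP_52e2a0_pr: the asymptotic order of the expected `T`-functionals of block-beta random polytopes, for all `a, b`. -/

open MeasureTheory RP
open scoped ENNReal

namespace Pool.Agent.Results.MP_52e2a0_pr.TFunctionalOrders

/-- Finiteness of `E T_{a,b}(P_n)` and its exact order. -/
theorem result (m : ℕ) (hm : 0 < m) (d : Fin m → ℕ) (hd : ∀ i, 1 ≤ d i) (β : Fin m → ℝ) (hβ : ∀ i, 0 ≤ β i)
    (a b : ℝ) :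
    (∀ n : ℕ, (∑ i, d i) + 1 ≤ n → (ET d β a b n < ⊤ ↔ (-1 < a ∧ ((∑ i, d i) = 1 ∨ -2 < b)))) ∧
    ((-1 < a ∧ ((∑ i, d i) = 1 ∨ -2 < b)) → ∃ c C : ℝ, 0 < c ∧ 0 < C ∧ ∀ᶠ n : ℕ in Filter.atTop,
      ENNReal.ofReal (c * ((n : ℝ) ^ (expo d β b) * (Real.log n) ^ (lexp d β b))) ≤ ET d β a b n ∧
      ET d β a b n ≤ ENNReal.ofReal (C * ((n : ℝ) ^ (expo d β b) * (Real.log n) ^ (lexp d β b)))) := by
  have hD : 1 ≤ ∑ i, d i := by
    have h0 : d ⟨0, hm⟩ ≤ ∑ i, d i := Finset.single_le_sum (f := d) (fun i _ => Nat.zero_le _) (Finset.mem_univ _)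
    exact (hd _).trans h0
  constructor
  · intro n hn
    constructor
    · intro h
      by_contra hcon
      by_cases ha : -1 < a
      · have hb : ¬ ((∑ i, d i) = 1 ∨ -2 < b) := fun hb => hcon ⟨ha, hb⟩
        rw [not_or] at hb
        rw [ET_top_b hm hd hβ a b (not_lt.mp hb.2) (by omega) n hn] at h
        exact lt_irrefl _ h
      · rw [ET_top_a hm hd hβ a b (not_lt.mp ha) n hn] at h
        exact lt_irrefl _ h
    · rintro ⟨ha, hb⟩
      obtain ⟨C, _, hC⟩ := ET_up (d := d) (β := β) hm hd hβ a b ha hb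
      exact (hC n hn).trans_lt ENNReal.ofReal_lt_top
  · rintro ⟨ha, hb⟩
    obtain ⟨C, hC, hup⟩ := ET_up (d := d) (β := β) hm hd hβ a b ha hb
    obtain ⟨c, hc, hlow⟩ := ET_low (d := d) (β := β) hm hd hβ a b
    refine ⟨c, C, hc, hC, ?_⟩
    filter_upwards [hlow, Filter.eventually_ge_atTop ((∑ i, d i) + 1)] with n h1 h2
    exact ⟨h1, hup n h2⟩

end Pool.Agent.Results.MP_52e2a0_pr.TFunctionalOrders
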